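import Pool.Agent.W623.SecC.Pts

/-! # Orders of values of products of polynomials without roots modulo the maximal ideal -/

namespace Pool.Agent.Q52.SecY

open Polynomial Pool.Agent.W623.SecC

section dvr

variable {A k : Type*} [CommRing A] [IsDomain A] [IsDiscreteValuationRing A] [Field k]
  [Algebra A k] [IsFractionRing A k]

/-- `z` is a unit times `ϖ ^ j` -/
def OrdIs (ϖ : A) (z : k) (j : ℤ) : Prop :=
  ∃ u : Aˣ, z = algebraMap A k u * algebraMap A k ϖ ^ j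

omit [IsDomain A] [IsDiscreteValuationRing A] [IsFractionRing A k] in
lemma OrdIs.one (ϖ : A) : OrdIs ϖ (1 : k) 0 := ⟨1, by simp⟩

omit [IsDomain A] [IsDiscreteValuationRing A] [IsFractionRing A k] in
lemma OrdIs.of_unit (ϖ : A) (u : A) (hu : IsUnit u) : OrdIs ϖ (algebraMap A k u) 0 := by
  obtain ⟨u, rfl⟩ := hu
  exact ⟨u, by simp⟩

lemma uniz_ne (ϖ : A) (hϖ : Irreducible ϖ) : algebraMap A k ϖ ≠ 0 := by
  rw [Ne, map_eq_zero_iff _ (IsFractionRing.injective A k)]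
  exact hϖ.ne_zero

lemma OrdIs.mul {ϖ : A} (hϖ : Irreducible ϖ) {z w : k} {i j : ℤ} (hz : OrdIs ϖ z i)
    (hw : OrdIs ϖ w j) : OrdIs ϖ (z * w) (i + j) := by
  obtain ⟨u, rfl⟩ := hz
  obtain ⟨v, rfl⟩ := hw
  refine ⟨u * v, ?_⟩
  rw [Units.val_mul, map_mul, zpow_add₀ (uniz_ne ϖ hϖ)]
  ring

lemma OrdIs.pow {ϖ : A} (hϖ : Irreducible ϖ) {z : k} {i : ℤ} (hz : OrdIs ϖ z i) (n : ℕ) :
    OrdIs ϖ (z ^ n) (n * i) := by
  induction n with
  | zero => simpa using OrdIs.one (k := k) ϖ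
  | succ n ih =>
    have h := ih.mul hϖ hz
    have e : ((n + 1 : ℕ) : ℤ) * i = n * i + i := by push_cast; ring
    rw [e, pow_succ]
    exact h

lemma OrdIs.unique {ϖ : A} (hϖ : Irreducible ϖ) {z : k} {i j : ℤ} (hz : OrdIs ϖ z i)
    (hz' : OrdIs ϖ z j) : i = j := by
  obtain ⟨u, hu⟩ := hz
  obtain ⟨v, hv⟩ := hz'
  have hϖk := uniz_ne (k := k) ϖ hϖ
  have hinv : algebraMap A k ((u⁻¹ : Aˣ) : A) * algebraMap A k (u : A) = 1 := by
    rw [← map_mul, Units.inv_mul, map_one]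
  have h1 : algebraMap A k ϖ ^ (i - j) = algebraMap A k ((u⁻¹ * v : Aˣ) : A) := by
    rw [zpow_sub₀ hϖk, div_eq_iff (zpow_ne_zero _ hϖk), Units.val_mul, map_mul]
    have h2 : algebraMap A k u * algebraMap A k ϖ ^ i =
        algebraMap A k v * algebraMap A k ϖ ^ j := by rw [← hu, ← hv]
    calc algebraMap A k ϖ ^ i = (algebraMap A k ((u⁻¹ : Aˣ) : A) * algebraMap A k (u : A)) *
          algebraMap A k ϖ ^ i := by rw [hinv, one_mul]
      _ = algebraMap A k ((u⁻¹ : Aˣ) : A) * (algebraMap A k v * algebraMap A k ϖ ^ j) := by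
          rw [mul_assoc, h2]
      _ = _ := by ring
  have h3 := zpow_unit_eq ϖ hϖ _ (Units.isUnit _) _ h1
  omega

lemma OrdIs.exists {ϖ : A} (hϖ : Irreducible ϖ) {z : k} (hz : z ≠ 0) : ∃ j, OrdIs ϖ z j := by
  obtain ⟨u, j, h⟩ := exists_unit_zpow ϖ hϖ z hz
  exact ⟨j, u, h⟩

/-- the values of a polynomial without roots modulo the maximal ideal have valuation divisible by
every divisor of the degree -/
lemma eval_ord (ϖ : A) (hϖ : Irreducible ϖ) (f : A[X]) (hlc : IsUnit f.leadingCoeff)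
    (ℓ : ℕ) (hev : ℓ ∣ f.natDegree) (hroot : ∀ b : A, f.eval b ∉ IsLocalRing.maximalIdeal A)
    (x : k) : ∃ j : ℤ, OrdIs ϖ ((f.map (algebraMap A k)).eval x) (ℓ * j) := by
  rcases mem_or_inv ϖ hϖ x with ⟨b, rfl⟩ | ⟨hx, b, hb, hbx⟩
  · refine ⟨0, ?_⟩
    rw [mul_zero, eval_map, eval₂_at_apply]
    apply OrdIs.of_unit
    by_contra h
    exact hroot b ((IsLocalRing.mem_maximalIdeal _).2 h)
  · obtain ⟨v, l, hl⟩ := exists_unit_zpow ϖ hϖ x hx
    obtain ⟨n, hn⟩ := hev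
    have hr : IsUnit ((reverse f).eval b) := by
      by_contra h
      have h1 : (reverse f).eval b ∈ IsLocalRing.maximalIdeal A :=
        (IsLocalRing.mem_maximalIdeal _).2 h
      rw [← divX_mul_X_add (reverse f), eval_add, eval_mul, eval_X, eval_C,
        coeff_zero_reverse] at h1
      have h2 : f.leadingCoeff ∈ IsLocalRing.maximalIdeal A := by
        have h3 := Ideal.mul_mem_left (IsLocalRing.maximalIdeal A)
          (eval b (reverse f).divX) hb
        exact (Ideal.add_mem_iff_right _ h3).1 h1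
      exact (IsLocalRing.mem_maximalIdeal _).1 h2 hlc
    obtain ⟨r, hr⟩ := hr
    refine ⟨l * n, r * v ^ f.natDegree, ?_⟩
    let _ := invertibleOfNonzero hx
    have h2 := Polynomial.eval₂_reverse_mul_pow (algebraMap A k) x f
    rw [invOf_eq_inv, ← hbx, eval₂_at_apply] at h2
    rw [eval_map, ← h2, Units.val_mul, Units.val_pow_eq_pow_val, map_mul, map_pow, hr]
    have h3 : x ^ f.natDegree = algebraMap A k v ^ f.natDegree *
        algebraMap A k ϖ ^ ((ℓ : ℤ) * (l * n)) := by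
      rw [hl, mul_pow, ← zpow_natCast (algebraMap A k ϖ ^ l), ← zpow_mul]
      congr 2
      rw [hn]
      push_cast
      ring
    rw [h3]
    ring

/-- no points on `a w ^ n = ∏ f i (x i)` -/
theorem no_sol (ϖ : A) (hϖ : Irreducible ϖ) {ι : Type*} [Fintype ι] (f : ι → A[X])
    (hlc : ∀ i, IsUnit (f i).leadingCoeff) (ℓ : ℕ) (hd : ∀ i, ℓ ∣ (f i).natDegree)
    (hroot : ∀ i, ∀ b : A, (f i).eval b ∉ IsLocalRing.maximalIdeal A) (a : k) (m : ℤ)
    (ha : OrdIs ϖ a m) (hm : ¬ (ℓ : ℤ) ∣ m) (n : ℕ) (hn : ℓ ∣ n) (hn0 : n ≠ 0) (x : ι → k) (w : k) :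
    a * w ^ n ≠ ∏ i, ((f i).map (algebraMap A k)).eval (x i) := by
  classical
  intro h
  have h1 : ∀ s : Finset ι, ∃ j : ℤ, OrdIs ϖ (∏ i ∈ s, ((f i).map (algebraMap A k)).eval (x i))
      (ℓ * j) := by
    intro s
    induction s using Finset.induction_on with
    | empty => exact ⟨0, by simpa using OrdIs.one (k := k) ϖ⟩
    | insert i s hi ih =>
      obtain ⟨j, hj⟩ := ih
      obtain ⟨j', hj'⟩ := eval_ord ϖ hϖ (f i) (hlc i) ℓ (hd i) (hroot i) (x i)
      refine ⟨j' + j, ?_⟩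
      rw [Finset.prod_insert hi, mul_add]
      exact hj'.mul hϖ hj
  obtain ⟨j, hj⟩ := h1 Finset.univ
  rw [← h] at hj
  have hw : w ≠ 0 := by
    rintro rfl
    rw [zero_pow hn0, mul_zero] at hj
    obtain ⟨u, hu⟩ := hj
    exact mul_ne_zero (u.isUnit.map (algebraMap A k)).ne_zero
      (zpow_ne_zero _ (uniz_ne ϖ hϖ)) hu.symm
  obtain ⟨s, hs⟩ := OrdIs.exists hϖ hw
  have h2 := (ha.mul hϖ (hs.pow hϖ n)).unique hϖ hj
  obtain ⟨n', rfl⟩ := hn
  apply hm
  refine ⟨j - n' * s, ?_⟩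
  push_cast at h2
  linear_combination h2

end dvr

end Pool.Agent.Q52.SecY
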