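import Pool.Agent.Q52.SecV.Place
import Pool.Agent.Q52.SecY.Ord

/-! # Places of ramification index and degree prime to `ℓ` in extensions of degree prime to `ℓ` -/

namespace Pool.Agent.Q52.SecY

open Polynomial Pool.Agent.Q52.SecV

set_option linter.deprecated false in
theorem exists_prime_l (A : Type) [CommRing A] [IsDomain A] [IsDedekindDomain A]
    (p : Ideal A) [p.IsMaximal] (hp0 : p ≠ ⊥) (S : Type) [CommRing S] [IsDomain S]
    [IsDedekindDomain S] [Algebra A S] [Module.Finite A S] [Module.IsTorsionFree A S]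
    (k L : Type) [Field k] [Field L] [Algebra A k] [IsFractionRing A k] [Algebra S L]
    [IsFractionRing S L] [Algebra k L] [Algebra A L] [IsScalarTower A S L] [IsScalarTower A k L]
    (ℓ : ℕ) (hℓ : ℓ.Prime) (hl : ¬ ℓ ∣ Module.finrank k L) :
    ∃ P : Ideal S, P.IsPrime ∧ P.LiesOver p ∧ ¬ ℓ ∣ Ideal.ramificationIdx' p P ∧
      ¬ ℓ ∣ Ideal.inertiaDeg' p P := by
  classical
  have h1 := Ideal.sum_ramification_inertia S k L (p := p) hp0
  by_contra hcon
  push Not at hcon
  apply hl
  rw [← h1]
  apply Finset.dvd_sum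
  intro P hP
  obtain ⟨hP1, hP2⟩ := (IsDedekindDomain.mem_primesOverFinset_iff hp0 _).mp hP
  by_cases ho : ℓ ∣ Ideal.ramificationIdx' p P
  · exact ho.mul_right _
  · exact (hcon P hP1 hP2 ho).mul_left _

set_option linter.deprecated false in
theorem exists_place_l (k : Type) [Field k] [CharZero k] (A : ValuationSubring k)
    [IsDiscreteValuationRing A] (ϖ : A) (hϖ : Irreducible ϖ) (κ : Type) [Field κ] (ρ : A →+* κ)
    (hρ : Function.Surjective ρ) (L : Type) [Field L]
    [Algebra k L] [FiniteDimensional k L] (ℓ : ℕ) (hℓ : ℓ.Prime)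
    (hl : ¬ ℓ ∣ Module.finrank k L) :
    ∃ P : Place k A ϖ κ ρ L, ¬ ℓ ∣ P.e ∧
      ¬ ℓ ∣ (@Module.finrank κ P.κ' _ (P.fld.toRing.toAddCommGroup.toAddCommMonoid)
        (@Algebra.toModule κ P.κ' _ _ P.alg)) := by
  classical
  set p := IsLocalRing.maximalIdeal A with hp
  have hp0 : p ≠ ⊥ := IsDiscreteValuationRing.not_a_field A
  have hϖp : p = Ideal.span {ϖ} := hϖ.maximalIdeal_eq
  have hS1 : IsDedekindDomain (integralClosure A L) := integralClosure.isDedekindDomain A k L
  have hS2 : IsFractionRing (integralClosure A L) L :=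
    integralClosure.isFractionRing_of_finite_extension k L
  have hS3 : Module.Finite A (integralClosure A L) := IsIntegralClosure.finite A k L _
  have hinj : Function.Injective (algebraMap A (integralClosure A L)) := by
    intro x y hxy
    have h1 := congrArg (fun z : integralClosure A L => (z : L)) hxy
    exact Subtype.ext ((algebraMap k L).injective h1)
  have hff := (faithfulSMul_iff_algebraMap_injective A (integralClosure A L)).2 hinj
  obtain ⟨P, hP1, hP2, he, hf⟩ := exists_prime_l A p hp0 (integralClosure A L) k L ℓ hℓ hl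
  have hP0 : P ≠ ⊥ := by
    rintro rfl
    have h1 := hP2.over
    apply hp0
    rw [h1, Ideal.under_bot]
  have hPm : P.IsMaximal := Ideal.IsPrime.isMaximal inferInstance hP0
  obtain ⟨B, hB, i, ρ', hρ', hi, hρi, hui, hPi⟩ := exists_local (integralClosure A L) L P hP0
  letI : Field (integralClosure A L ⧸ P) := Ideal.Quotient.field P
  letI : Field (A ⧸ p) := Ideal.Quotient.field p
  have hker : RingHom.ker ρ = p := by
    have hmax : (RingHom.ker ρ).IsMaximal := RingHom.ker_isMaximal_of_surjective ρ hρ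
    exact IsLocalRing.eq_maximalIdeal hmax
  let ε : A ⧸ p ≃+* κ := (Ideal.quotEquivOfEq hker.symm).trans (RingHom.quotientKerEquivOfSurjective hρ)
  have hε : ∀ a : A, ε (Ideal.Quotient.mk p a) = ρ a := fun a => rfl
  letI algκ : Algebra κ (integralClosure A L ⧸ P) :=
    ((algebraMap (A ⧸ p) (integralClosure A L ⧸ P)).comp (ε.symm : κ →+* A ⧸ p)).toAlgebra
  have hrank : Module.finrank (A ⧸ p) (integralClosure A L ⧸ P) =
      Module.finrank κ (integralClosure A L ⧸ P) := by
    apply Algebra.finrank_eq_of_equiv_equiv ε (RingEquiv.refl _)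
    ext a
    change algebraMap (A ⧸ p) (integralClosure A L ⧸ P) (ε.symm (ε _)) = _
    rw [RingEquiv.symm_apply_apply]
    rfl
  have hf' : ¬ ℓ ∣ Module.finrank κ (integralClosure A L ⧸ P) := by
    rw [← hrank, ← Ideal.inertiaDeg'_algebraMap]
    exact hf
  have hfin : FiniteDimensional κ (integralClosure A L ⧸ P) := by
    apply Module.finite_of_finrank_pos
    apply Nat.pos_of_ne_zero
    intro h
    rw [h] at hf'
    exact hf' (dvd_zero _)
  obtain ⟨π, hπ⟩ := IsDiscreteValuationRing.exists_irreducible B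
  obtain ⟨u, hu⟩ := unif_pow A p ϖ hϖp hϖ.ne_zero (integralClosure A L) hinj P B i hui hPi π hπ
  refine ⟨⟨B, hB, integralClosure A L ⧸ P, inferInstance, algκ, hfin, ρ', hρ',
    i.comp (algebraMap A (integralClosure A L)), ?_, ?_, π, hπ, Ideal.ramificationIdx' p P, u, hu⟩,
    he, hf'⟩
  · intro a
    rw [RingHom.comp_apply, hi]
    rfl
  · intro a
    rw [RingHom.comp_apply, hρi]
    change _ = algebraMap (A ⧸ p) (integralClosure A L ⧸ P) (ε.symm (ρ a))
    rw [← hε, RingEquiv.symm_apply_apply]
    rfl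

/-- **No zero-cycles of degree prime to `ℓ`** on `a w ^ n = ∏ f i (x i)`, for a discretely valued
field -/
theorem no_cycle (k : Type) [Field k] [CharZero k] (A : ValuationSubring k)
    [IsDiscreteValuationRing A] (ϖ : A) (hϖ : Irreducible ϖ) (κ : Type) [Field κ] (ρ : A →+* κ)
    (hρ : Function.Surjective ρ) (ℓ : ℕ) (hℓ : ℓ.Prime) {ι : Type} [Fintype ι] (f : ι → A[X])
    (hlc : ∀ i, IsUnit (f i).leadingCoeff) (hd : ∀ i, ℓ ∣ (f i).natDegree)
    (hirr : ∀ i, Irreducible ((f i).map ρ)) (n : ℕ) (hn : ℓ ∣ n) (hn0 : n ≠ 0)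
    (L : Type) [Field L] [Algebra k L] [FiniteDimensional k L] (hl : ¬ ℓ ∣ Module.finrank k L)
    (x : ι → L) (w : L) :
    algebraMap k L (ϖ : k) * w ^ n ≠
      ∏ i, (((f i).map (algebraMap A k)).map (algebraMap k L)).eval (x i) := by
  obtain ⟨P, he, hf⟩ := exists_place_l k A ϖ hϖ κ ρ hρ L ℓ hℓ hl
  obtain ⟨B, hB, κ', fld, alg, fin, ρ', sur, i, hi, hρi, π, hπ, e, u, hu⟩ := P
  dsimp only at he hf
  have hinj : Function.Injective i := by
    intro x y hxy
    have h1 := congrArg (fun z : B => (z : L)) hxy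
    simp only [hi] at h1
    exact Subtype.ext ((algebraMap k L).injective h1)
  have hgL : ∀ j, ((f j).map i).map (algebraMap B L) =
      ((f j).map (algebraMap A k)).map (algebraMap k L) := by
    intro j
    rw [Polynomial.map_map, Polynomial.map_map]
    congr 1
    ext x
    exact hi x
  simp only [← hgL]
  refine no_sol π hπ (fun j => (f j).map i) ?_ ℓ ?_ ?_ _ (e : ℤ) ?_ ?_ n hn hn0 x w
  · intro j
    change IsUnit ((f j).map i).leadingCoeff
    rw [leadingCoeff_map_of_injective hinj]
    exact (hlc j).map i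
  · intro j
    change ℓ ∣ ((f j).map i).natDegree
    rw [natDegree_map_eq_of_injective hinj]
    exact hd j
  · intro j b hb
    change ((f j).map i).eval b ∈ _ at hb
    have hker : ρ' (((f j).map i).eval b) = 0 := by
      have hmax : (RingHom.ker ρ').IsMaximal := RingHom.ker_isMaximal_of_surjective ρ' sur
      rw [← IsLocalRing.eq_maximalIdeal hmax] at hb
      exact hb
    have hgρ : ((f j).map i).map ρ' = ((f j).map ρ).map (algebraMap κ κ') := by
      rw [Polynomial.map_map, Polynomial.map_map]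
      congr 1
      ext x
      exact hρi x
    have hr : aeval (ρ' b) ((f j).map ρ) = 0 := by
      rw [aeval_def, ← eval_map, ← hgρ, eval_map, eval₂_at_apply, hker]
    have hint : IsIntegral κ (ρ' b) := Algebra.IsIntegral.isIntegral _
    have h2 : Associated (minpoly κ (ρ' b)) ((f j).map ρ) :=
      (minpoly.irreducible hint).associated_of_dvd (hirr j) (minpoly.dvd κ _ hr)
    have hρlc : ρ (f j).leadingCoeff ≠ 0 := ((hlc j).map ρ).ne_zero
    have h3 : (minpoly κ (ρ' b)).natDegree = (f j).natDegree := by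
      rw [natDegree_eq_of_degree_eq (degree_eq_degree_of_associated h2),
        natDegree_map_of_leadingCoeff_ne_zero _ hρlc]
    have h4 := minpoly.degree_dvd hint
    rw [h3] at h4
    exact hf ((hd j).trans h4)
  · refine ⟨u, ?_⟩
    have h5 : algebraMap k L (ϖ : k) = ((i ϖ : B) : L) := (hi ϖ).symm
    rw [h5, hu, zpow_natCast]
    rfl
  · intro h
    exact he (by exact_mod_cast h)

end Pool.Agent.Q52.SecY
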