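import Pool.Agent.Q52.SecY.Cnt
import Pool.Agent.Q52.SecY.PlaceL
import Pool.Agent.W189.NF.Residue

/-! # Local zero-cycles on `a w ^ n = ∏ f i (x i)` -/

set_option autoImplicit false

namespace Pool.Agent.Q52.SecY

open Polynomial NumberField IsDedekindDomain Pool.Agent.TH120.Sec Pool.Agent.TH377.Sup WithZero
open Pool.Agent.W189.NF (Ov mem_max_iff redMap redMap_eq_zero redMap_surjective)

variable {K : Type} [Field K] [NumberField K] (v : HeightOneSpectrum (𝓞 K))

lemma mem_and (b : 𝓞 K) (hb : b ∈ v.asIdeal) (hb' : b ∉ v.asIdeal ^ 2) :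
    v.intValuation b = exp (-((1 : ℕ) : ℤ)) := by
  apply le_antisymm
  · exact (v.intValuation_le_pow_iff_mem b 1).2 (by rwa [pow_one])
  · by_contra h
    rw [not_le] at h
    apply hb'
    have e : (2 : ℕ) = 1 + 1 := rfl
    rw [e, ← v.intValuation_le_pow_iff_mem]
    have h2 : b ≠ 0 := by
      rintro rfl
      exact hb' (zero_mem _)
    have h3 : v.intValuation b ≠ 0 := v.intValuation_ne_zero b h2
    obtain ⟨z, hz⟩ : ∃ z : ℤ, v.intValuation b = exp z := ⟨log (v.intValuation b),
      (exp_log h3).symm⟩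
    rw [hz, exp_lt_exp] at h
    rw [hz, exp_le_exp]
    push_cast at h ⊢
    omega

lemma valued_Ov (b : 𝓞 K) : Valued.v ((algebraMap (𝓞 K) (Ov v) b : Ov v) : v.adicCompletion K) =
    v.intValuation b := by
  have h1 : ((algebraMap (𝓞 K) (Ov v) b : Ov v) : v.adicCompletion K) =
      algebraMap K (v.adicCompletion K) (algebraMap (𝓞 K) K b) := by
    rw [HeightOneSpectrum.algebraMap_adicCompletion]
    rfl
  rw [h1, Pool.Agent.H723R3.valued_algebraMap, HeightOneSpectrum.valuation_of_algebraMap]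

/-- an element of valuation one is a uniformiser -/
lemma irreducible_of_valued (ϖ : Ov v) (h : Valued.v (ϖ : v.adicCompletion K) = exp (-((1 : ℕ) : ℤ))) :
    Irreducible ϖ := by
  have hle : ∀ x : Ov v, ¬ IsUnit x → Valued.v (x : v.adicCompletion K) ≤ exp (-((1 : ℕ) : ℤ)) := by
    intro x hx
    have h1 : Valued.v (x : v.adicCompletion K) < 1 := by
      rw [← mem_max_iff, IsLocalRing.mem_maximalIdeal]
      exact hx
    by_cases h0 : Valued.v (x : v.adicCompletion K) = 0
    · rw [h0]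
      exact zero_le
    · obtain ⟨z, hz⟩ : ∃ z : ℤ, Valued.v (x : v.adicCompletion K) = exp z :=
        ⟨log (Valued.v (x : v.adicCompletion K)), (exp_log h0).symm⟩
      rw [hz, ← exp_zero, exp_lt_exp] at h1
      rw [hz, exp_le_exp]
      push_cast
      omega
  refine ⟨?_, ?_⟩
  · intro hu
    have h1 := HeightOneSpectrum.adicCompletionIntegers.isUnit_iff_valued_eq_one.1 hu
    rw [h, ← exp_zero, exp_inj] at h1
    norm_num at h1
  · intro x y hxy
    by_contra hcon
    rw [not_or] at hcon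
    have h1 := hle x hcon.1
    have h2 := hle y hcon.2
    have h3 : Valued.v (ϖ : v.adicCompletion K) ≤ exp (-((2 : ℕ) : ℤ)) := by
      have h4 : (ϖ : v.adicCompletion K) = (x : v.adicCompletion K) * (y : v.adicCompletion K) := by
        rw [hxy]
        rfl
      rw [h4, map_mul]
      calc _ ≤ exp (-((1 : ℕ) : ℤ)) * exp (-((1 : ℕ) : ℤ)) := mul_le_mul' h1 h2
        _ = _ := by
          rw [← exp_add]
          norm_num
    rw [h, exp_le_exp] at h3
    norm_num at h3

/-- the residue field of the completion -/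
noncomputable def resEquiv : (𝓞 K ⧸ v.asIdeal) ≃+* IsLocalRing.ResidueField (Ov v) :=
  (Ideal.quotEquivOfEq (by
    ext r
    rw [RingHom.mem_ker]
    exact (redMap_eq_zero v r).symm)).trans
    (RingHom.quotientKerEquivOfSurjective (redMap_surjective v))

lemma resEquiv_mk (r : 𝓞 K) : resEquiv v (Ideal.Quotient.mk v.asIdeal r) =
    IsLocalRing.residue (Ov v) (algebraMap (𝓞 K) (Ov v) r) := rfl

lemma irreducible_residue (p : (𝓞 K)[X])
    (hp : Irreducible (p.map (Ideal.Quotient.mk v.asIdeal))) :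
    Irreducible ((p.map (algebraMap (𝓞 K) (Ov v))).map (IsLocalRing.residue (Ov v))) := by
  have h1 : (p.map (algebraMap (𝓞 K) (Ov v))).map (IsLocalRing.residue (Ov v)) =
      Polynomial.mapEquiv (resEquiv v) (p.map (Ideal.Quotient.mk v.asIdeal)) := by
    rw [Polynomial.mapEquiv_apply, Polynomial.map_map, Polynomial.map_map]
    rfl
  rw [h1]
  exact (MulEquiv.irreducible_iff (Polynomial.mapEquiv (resEquiv v))).2 hp

/-- the meaning of a good vector -/
lemma good_iff' {r : ℕ} (d : Fin r → ℕ) (y : Idx d → 𝓞 K)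
    (hy : (fun o => Ideal.Quotient.mk (v.asIdeal ^ 2) (y o)) ∈ GoodM v d) :
    y none ∈ v.asIdeal ∧ y none ∉ v.asIdeal ^ 2 ∧ ∀ i, y (some ⟨i, Fin.last (d i)⟩) ∉ v.asIdeal ∧
      Irreducible ((pol fun j => y (some ⟨i, j⟩)).map (Ideal.Quotient.mk v.asIdeal)) := by
  obtain ⟨⟨h1, h2⟩, h3⟩ := hy
  refine ⟨?_, ?_, fun i => ⟨?_, ?_⟩⟩
  · exact Ideal.Quotient.eq_zero_iff_mem.1 h1
  · exact fun h => h2 (Ideal.Quotient.eq_zero_iff_mem.2 h)
  · exact fun h => (h3 i).1 (Ideal.Quotient.eq_zero_iff_mem.2 h)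
  · rw [pol_map]
    exact (h3 i).2

/-- **no zero-cycles of degree prime to `ℓ`** over the completion at a good prime -/
theorem no_cycle_compl {r : ℕ} (d : Fin r → ℕ) (y : Idx d → 𝓞 K)
    (hy : (fun o => Ideal.Quotient.mk (v.asIdeal ^ 2) (y o)) ∈ GoodM v d) (ℓ : ℕ) (hℓ : ℓ.Prime)
    (hd : ∀ i, ℓ ∣ d i) (n : ℕ) (hn : ℓ ∣ n) (hn0 : n ≠ 0) (E : Type) [Field E]
    [Algebra (v.adicCompletion K) E] [FiniteDimensional (v.adicCompletion K) E]
    (hl : ¬ ℓ ∣ Module.finrank (v.adicCompletion K) E) (x : Fin r → E) (w : E) :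
    algebraMap (v.adicCompletion K) E (algebraMap K (v.adicCompletion K)
        (algebraMap (𝓞 K) K (y none))) * w ^ n ≠
      ∏ i, eval₂ ((algebraMap (v.adicCompletion K) E).comp (algebraMap K (v.adicCompletion K)))
        (x i) (pol fun j => algebraMap (𝓞 K) K (y (some ⟨i, j⟩))) := by
  obtain ⟨h1, h2, h3⟩ := good_iff' v d y hy
  have hcz : CharZero (v.adicCompletion K) :=
    charZero_of_injective_algebraMap (algebraMap K (v.adicCompletion K)).injective
  set ϖ : Ov v := algebraMap (𝓞 K) (Ov v) (y none) with hϖdef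
  have hϖ : Irreducible ϖ := by
    apply irreducible_of_valued
    rw [hϖdef, valued_Ov]
    exact mem_and v _ h1 h2
  have hcoe : ∀ b : 𝓞 K, ((algebraMap (𝓞 K) (Ov v) b : Ov v) : v.adicCompletion K) =
      algebraMap K (v.adicCompletion K) (algebraMap (𝓞 K) K b) := by
    intro b
    rw [HeightOneSpectrum.algebraMap_adicCompletion]
    rfl
  have hunit : ∀ b : 𝓞 K, b ∉ v.asIdeal → IsUnit (algebraMap (𝓞 K) (Ov v) b) := by
    intro b hb
    by_contra h
    have h4 : algebraMap (𝓞 K) (Ov v) b ∈ IsLocalRing.maximalIdeal (Ov v) :=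
      (IsLocalRing.mem_maximalIdeal _).2 h
    rw [← IsLocalRing.residue_eq_zero_iff] at h4
    exact hb ((redMap_eq_zero v b).1 h4)
  have hinj : Function.Injective (algebraMap (𝓞 K) (Ov v)) := FaithfulSMul.algebraMap_injective _ _
  have hlast : ∀ i, y (some ⟨i, Fin.last (d i)⟩) ≠ 0 := by
    intro i h
    apply (h3 i).1
    rw [h]
    exact zero_mem _
  have key := no_cycle (v.adicCompletion K) (v.adicCompletionIntegers K) ϖ hϖ
    (IsLocalRing.ResidueField (Ov v)) (IsLocalRing.residue (Ov v))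
    (IsLocalRing.residue_surjective) ℓ hℓ
    (fun i => (pol fun j => y (some ⟨i, j⟩)).map (algebraMap (𝓞 K) (Ov v))) (by
      intro i
      change IsUnit ((pol fun j => y (some ⟨i, j⟩)).map (algebraMap (𝓞 K) (Ov v))).leadingCoeff
      rw [leadingCoeff_map_of_injective hinj,
        pol_leadingCoeff (fun j => y (some ⟨i, j⟩)) (hlast i)]
      exact hunit _ (h3 i).1) (by
      intro i
      change ℓ ∣ ((pol fun j => y (some ⟨i, j⟩)).map (algebraMap (𝓞 K) (Ov v))).natDegree
      rw [natDegree_map_eq_of_injective hinj, pol_natDegree (fun j => y (some ⟨i, j⟩)) (hlast i)]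
      exact hd i) (fun i => irreducible_residue v _ (h3 i).2) n hn hn0 E hl x w
  have e1 : ((ϖ : Ov v) : v.adicCompletion K) =
      algebraMap K (v.adicCompletion K) (algebraMap (𝓞 K) K (y none)) := hcoe _
  have e2 : ∀ i, ((((pol fun j => y (some ⟨i, j⟩)).map (algebraMap (𝓞 K) (Ov v))).map
      (algebraMap (Ov v) (v.adicCompletion K))).map (algebraMap (v.adicCompletion K) E)).eval
        (x i) = eval₂ ((algebraMap (v.adicCompletion K) E).comp
          (algebraMap K (v.adicCompletion K))) (x i)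
            (pol fun j => algebraMap (𝓞 K) K (y (some ⟨i, j⟩))) := by
    intro i
    rw [← pol_map (algebraMap (𝓞 K) K), eval₂_map, Polynomial.map_map, Polynomial.map_map,
      eval_map]
    congr 1
  intro h
  apply key
  rw [e1, h]
  exact Finset.prod_congr rfl fun i _ => (e2 i).symm

end Pool.Agent.Q52.SecY
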