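import Pool.Agent.Q52.SecY.Loc
import Pool.Agent.Q52.SecX.Fam

/-! # Local points over the completions of extensions -/

set_option autoImplicit false

namespace Pool.Agent.Q52.SecY

open Polynomial NumberField IsDedekindDomain Pool.Agent.TH120.Sec Pool.Agent.TH377.Sup WithZero
open Pool.Agent.W189.NF (Ov mem_max_iff redMap redMap_eq_zero redMap_surjective)
open Pool.Agent.Q52.SecX (exact_ramification)

variable {K L : Type} [Field K] [NumberField K] [Field L] [NumberField L] [Algebra K L]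

lemma intVal_eq (w : HeightOneSpectrum (𝓞 L)) (b : 𝓞 L) (e : ℕ) (hb : b ∈ w.asIdeal ^ e)
    (hb' : b ∉ w.asIdeal ^ (e + 1)) : w.intValuation b = exp (-(e : ℤ)) := by
  apply le_antisymm
  · exact (w.intValuation_le_pow_iff_mem b e).2 hb
  · by_contra h
    rw [not_le] at h
    apply hb'
    rw [← w.intValuation_le_pow_iff_mem]
    have h2 : b ≠ 0 := by
      rintro rfl
      exact hb' (zero_mem _)
    have h3 : w.intValuation b ≠ 0 := w.intValuation_ne_zero b h2
    obtain ⟨z, hz⟩ : ∃ z : ℤ, w.intValuation b = exp z := ⟨log (w.intValuation b),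
      (exp_log h3).symm⟩
    rw [hz, exp_lt_exp] at h
    rw [hz, exp_le_exp]
    push_cast at h ⊢
    omega

lemma ordIs_of_valued (w : HeightOneSpectrum (𝓞 L)) (ϖ : Ov w)
    (hϖ : Valued.v (ϖ : w.adicCompletion L) = exp (-((1 : ℕ) : ℤ))) (z : w.adicCompletion L)
    (e : ℤ) (hz : Valued.v z = exp (-e)) : OrdIs ϖ z e := by
  have hϖ0 : (ϖ : w.adicCompletion L) ≠ 0 := by
    intro h
    rw [h, map_zero] at hϖ
    exact exp_ne_zero hϖ.symm
  have h1 : Valued.v (z * ((ϖ : w.adicCompletion L) ^ e)⁻¹) = 1 := by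
    rw [map_mul, map_inv₀, map_zpow₀, hϖ, hz, ← exp_zsmul]
    rw [← exp_neg, ← exp_add, ← exp_zero]
    congr 1
    simp
  have hmem : z * ((ϖ : w.adicCompletion L) ^ e)⁻¹ ∈ w.adicCompletionIntegers L := by
    rw [HeightOneSpectrum.mem_adicCompletionIntegers, h1]
  have hu : IsUnit (⟨_, hmem⟩ : Ov w) :=
    HeightOneSpectrum.adicCompletionIntegers.isUnit_iff_valued_eq_one.2 h1
  obtain ⟨u, hu⟩ := hu
  refine ⟨u, ?_⟩
  rw [hu]
  change z = z * ((ϖ : w.adicCompletion L) ^ e)⁻¹ * (ϖ : w.adicCompletion L) ^ e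
  rw [mul_assoc, inv_mul_cancel₀ (zpow_ne_zero _ hϖ0), mul_one]

/-- **no points over the completion `L_w`** -/
theorem no_point_above {r : ℕ} (d : Fin r → ℕ) (v : HeightOneSpectrum (𝓞 K))
    (w : HeightOneSpectrum (𝓞 L)) [w.asIdeal.LiesOver v.asIdeal] (y : Idx d → 𝓞 K)
    (hy : (fun o => Ideal.Quotient.mk (v.asIdeal ^ 2) (y o)) ∈ GoodM v d) (ℓ : ℕ)
    (hd : ∀ i, ℓ ∣ d i) (hram : ¬ ℓ ∣ v.asIdeal.ramificationIdx' w.asIdeal)
    (hin : ∀ i, ¬ d i ∣ v.asIdeal.inertiaDeg' w.asIdeal)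
    (n : ℕ) (hn : ℓ ∣ n) (hn0 : n ≠ 0) (x : Fin r → w.adicCompletion L) (z : w.adicCompletion L) :
    algebraMap L (w.adicCompletion L) (algebraMap K L (algebraMap (𝓞 K) K (y none))) * z ^ n ≠
      ∏ i, eval₂ ((algebraMap L (w.adicCompletion L)).comp (algebraMap K L))
        (x i) (pol fun j => algebraMap (𝓞 K) K (y (some ⟨i, j⟩))) := by
  classical
  obtain ⟨h1, h2, h3⟩ := good_iff' v d y hy
  have hvp : v.asIdeal.IsPrime := v.isPrime
  have hvm : v.asIdeal.IsMaximal := v.isMaximal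
  have hwp : w.asIdeal.IsPrime := w.isPrime
  have hwm : w.asIdeal.IsMaximal := w.isMaximal
  have hover : v.asIdeal = w.asIdeal.under (𝓞 K) := Ideal.LiesOver.over
  have hmem : ∀ x : 𝓞 K, algebraMap (𝓞 K) (𝓞 L) x ∈ w.asIdeal ↔ x ∈ v.asIdeal := by
    intro x
    rw [hover]
    rfl
  let _ : Field (𝓞 K ⧸ v.asIdeal) := Ideal.Quotient.field _
  let _ : Field (𝓞 L ⧸ w.asIdeal) := Ideal.Quotient.field _
  have hfinv : Finite (𝓞 K ⧸ v.asIdeal) := Ideal.finiteQuotientOfFreeOfNeBot _ v.ne_bot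
  have hfinw : Finite (𝓞 L ⧸ w.asIdeal) := Ideal.finiteQuotientOfFreeOfNeBot _ w.ne_bot
  have hmf : Module.Finite (𝓞 K ⧸ v.asIdeal) (𝓞 L ⧸ w.asIdeal) := Module.Finite.of_finite
  obtain ⟨π0, hπ0⟩ := w.intValuation_exists_uniformizer
  set ϖ : Ov w := algebraMap (𝓞 L) (Ov w) π0 with hϖdef
  have hϖv : Valued.v (ϖ : w.adicCompletion L) = exp (-((1 : ℕ) : ℤ)) := by
    rw [hϖdef, valued_Ov, hπ0]
    norm_num
  have hϖ : Irreducible ϖ := irreducible_of_valued w ϖ hϖv
  let j : 𝓞 K →+* Ov w := (algebraMap (𝓞 L) (Ov w)).comp (algebraMap (𝓞 K) (𝓞 L))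
  have hcoe : ∀ b : 𝓞 K, ((j b : Ov w) : w.adicCompletion L) =
      algebraMap L (w.adicCompletion L) (algebraMap K L (algebraMap (𝓞 K) K b)) := by
    intro b
    have e1 : ((j b : Ov w) : w.adicCompletion L) =
        algebraMap L (w.adicCompletion L) (algebraMap (𝓞 L) L (algebraMap (𝓞 K) (𝓞 L) b)) := by
      rw [HeightOneSpectrum.algebraMap_adicCompletion]
      rfl
    rw [e1]
    congr 1
  have hred : ∀ b : 𝓞 K, IsLocalRing.residue (Ov w) (j b) = resEquiv w
      (algebraMap (𝓞 K ⧸ v.asIdeal) (𝓞 L ⧸ w.asIdeal) (Ideal.Quotient.mk v.asIdeal b)) := by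
    intro b
    have e1 : algebraMap (𝓞 K ⧸ v.asIdeal) (𝓞 L ⧸ w.asIdeal) (Ideal.Quotient.mk v.asIdeal b) =
        Ideal.Quotient.mk w.asIdeal (algebraMap (𝓞 K) (𝓞 L) b) := rfl
    rw [e1, resEquiv_mk]
    rfl
  have hunit : ∀ b : 𝓞 K, b ∉ v.asIdeal → IsUnit (j b) := by
    intro b hb
    by_contra h
    have h4 : j b ∈ IsLocalRing.maximalIdeal (Ov w) := (IsLocalRing.mem_maximalIdeal _).2 h
    rw [← IsLocalRing.residue_eq_zero_iff] at h4
    apply hb
    rw [← hmem]
    exact (redMap_eq_zero w _).1 h4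
  have hinj : Function.Injective j := (FaithfulSMul.algebraMap_injective (𝓞 L) (Ov w)).comp
    (FaithfulSMul.algebraMap_injective (𝓞 K) (𝓞 L))
  have hlast : ∀ i, y (some ⟨i, Fin.last (d i)⟩) ≠ 0 := by
    intro i h
    apply (h3 i).1
    rw [h]
    exact zero_mem _
  have hdeg : ∀ i, (pol fun j => y (some ⟨i, j⟩)).natDegree = d i := fun i =>
    pol_natDegree (fun j => y (some ⟨i, j⟩)) (hlast i)
  obtain ⟨hb2, hb2'⟩ := exact_ramification v w (y none) (by rwa [pow_one]) h2
  have hord : OrdIs ϖ ((j (y none) : Ov w) : w.adicCompletion L)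
      ((v.asIdeal.ramificationIdx' w.asIdeal : ℕ) : ℤ) := by
    apply ordIs_of_valued w ϖ hϖv
    change Valued.v ((algebraMap (𝓞 L) (Ov w) (algebraMap (𝓞 K) (𝓞 L) (y none)) : Ov w) :
      w.adicCompletion L) = _
    rw [valued_Ov]
    exact intVal_eq w _ _ hb2 hb2'
  have key := no_sol ϖ hϖ (fun i => (pol fun l => y (some ⟨i, l⟩)).map j) (by
      intro i
      change IsUnit ((pol fun l => y (some ⟨i, l⟩)).map j).leadingCoeff
      rw [leadingCoeff_map_of_injective hinj,
        pol_leadingCoeff (fun j => y (some ⟨i, j⟩)) (hlast i)]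
      exact hunit _ (h3 i).1) ℓ (by
      intro i
      change ℓ ∣ ((pol fun l => y (some ⟨i, l⟩)).map j).natDegree
      rw [natDegree_map_eq_of_injective hinj, hdeg]
      exact hd i) (by
      intro i b hb
      change ((pol fun l => y (some ⟨i, l⟩)).map j).eval b ∈ _ at hb
      set p : (𝓞 K ⧸ v.asIdeal)[X] :=
        (pol fun l => y (some ⟨i, l⟩)).map (Ideal.Quotient.mk v.asIdeal) with hp
      have hpirr : Irreducible p := (h3 i).2
      have hpdeg : p.natDegree = d i := by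
        rw [hp, natDegree_map_of_leadingCoeff_ne_zero, hdeg]
        rw [pol_leadingCoeff (fun j => y (some ⟨i, j⟩)) (hlast i)]
        exact fun h => (h3 i).1 (Ideal.Quotient.eq_zero_iff_mem.1 h)
      set s := (resEquiv w).symm (IsLocalRing.residue (Ov w) b) with hs
      have hr' : aeval s p = 0 := by
        apply (resEquiv w).injective
        rw [map_zero]
        have e2 : ((resEquiv w : (𝓞 L ⧸ w.asIdeal) →+* _).comp
            (algebraMap (𝓞 K ⧸ v.asIdeal) (𝓞 L ⧸ w.asIdeal))).comp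
            (Ideal.Quotient.mk v.asIdeal) = (IsLocalRing.residue (Ov w)).comp j := by
          ext b
          exact (hred b).symm
        rw [← IsLocalRing.residue_eq_zero_iff, ← eval₂_at_apply] at hb
        rw [eval₂_map, ← e2] at hb
        have e3 : IsLocalRing.residue (Ov w) b = (resEquiv w : (𝓞 L ⧸ w.asIdeal) →+* _) s := by
          rw [hs]
          exact ((resEquiv w).apply_symm_apply _).symm
        rw [e3, ← eval₂_map, ← hom_eval₂] at hb
        exact hb
      have hint : IsIntegral (𝓞 K ⧸ v.asIdeal) s := Algebra.IsIntegral.isIntegral s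
      have h1 : minpoly (𝓞 K ⧸ v.asIdeal) s ∣ p := minpoly.dvd _ s hr'
      have h2 : Associated (minpoly (𝓞 K ⧸ v.asIdeal) s) p :=
        (minpoly.irreducible hint).associated_of_dvd hpirr h1
      have h3 : (minpoly (𝓞 K ⧸ v.asIdeal) s).natDegree = d i := by
        rw [natDegree_eq_of_degree_eq (degree_eq_degree_of_associated h2), hpdeg]
      have h4 := minpoly.degree_dvd hint
      rw [h3] at h4
      apply hin i
      rw [Ideal.inertiaDeg'_algebraMap]
      exact h4) _ _ hord (by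
      intro h
      exact hram (by exact_mod_cast h)) n hn hn0 x z
  have e2 : ∀ i, (((pol fun l => y (some ⟨i, l⟩)).map j).map
      (algebraMap (Ov w) (w.adicCompletion L))).eval (x i) =
        eval₂ ((algebraMap L (w.adicCompletion L)).comp (algebraMap K L)) (x i)
            (pol fun l => algebraMap (𝓞 K) K (y (some ⟨i, l⟩))) := by
    intro i
    rw [← pol_map (algebraMap (𝓞 K) K), eval₂_map, Polynomial.map_map, eval_map]
    congr 1
  intro h
  apply key
  rw [hcoe, h]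
  exact Finset.prod_congr rfl fun i _ => (e2 i).symm

/-- the primes of `K` such that for all primes of `L` above them the ramification index is divisible
by `ℓ` or the residue degree is divisible by some `d i` -/
def RamSetM (ℓ : ℕ) {r : ℕ} (d : Fin r → ℕ) (K L : Type) [Field K] [NumberField K] [Field L]
    [NumberField L] [Algebra K L] : Set (HeightOneSpectrum (𝓞 K)) :=
  {v | ∀ w : HeightOneSpectrum (𝓞 L), w.asIdeal.LiesOver v.asIdeal →
    ℓ ∣ v.asIdeal.ramificationIdx' w.asIdeal ∨ ∃ i, d i ∣ v.asIdeal.inertiaDeg' w.asIdeal}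

set_option linter.deprecated false in
lemma dvd_finrankM (ℓ : ℕ) {r : ℕ} (d : Fin r → ℕ) (hd : ∀ i, ℓ ∣ d i)
    (v : HeightOneSpectrum (𝓞 K)) (hv : v ∈ RamSetM ℓ d K L) : ℓ ∣ Module.finrank K L := by
  have hvm : v.asIdeal.IsMaximal := v.isMaximal
  rw [← Ideal.sum_ramification_inertia (𝓞 L) K L v.ne_bot (p := v.asIdeal)]
  refine Finset.dvd_sum fun P hP => ?_
  rw [IsDedekindDomain.mem_primesOverFinset_iff v.ne_bot] at hP
  have hPp : P.IsPrime := hP.1
  have hPo : P.LiesOver v.asIdeal := hP.2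
  have hP0 : P ≠ ⊥ := Ideal.ne_bot_of_liesOver_of_ne_bot v.ne_bot P
  rcases hv ⟨P, hPp, hP0⟩ hPo with h | ⟨i, h⟩
  · exact Dvd.dvd.mul_right h _
  · exact Dvd.dvd.mul_left ((hd i).trans h) _

end Pool.Agent.Q52.SecY
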