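import Pool.Agent.Q52.SecX.Vec

/-! # Counting tuples of polynomials which are irreducible modulo a prime -/

set_option autoImplicit false

namespace Pool.Agent.Q52.SecY

open Polynomial NumberField IsDedekindDomain Pool.Agent.TH120.Sec Pool.Agent.TH377.Sup
open Pool.Agent.Q52.SecX (SmallV many_vec)

/-- the index set of the coefficients: `none` for `a`, and `some ⟨i, j⟩` for the coefficient of
`x ^ j` in the polynomial number `i` -/
abbrev Idx {r : ℕ} (d : Fin r → ℕ) : Type := Option (Σ i : Fin r, Fin (d i + 1))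

variable {K : Type} [Field K] [NumberField K] (v : HeightOneSpectrum (𝓞 K))

/-- the polynomials which are irreducible of full degree modulo the prime -/
def GoodP (d : ℕ) : Set (Fin (d + 1) → 𝓞 K ⧸ v.asIdeal ^ 2) :=
  {x | pr v (x (Fin.last d)) ≠ 0 ∧ Irreducible (pol fun i : Fin (d + 1) => pr v (x i))}

lemma goodP_card (d : ℕ) (hd : 3 ≤ d) :
    (Ideal.absNorm v.asIdeal - 1) * Ideal.absNorm v.asIdeal ^ (2 * d + 1) ≤
      2 * d * (GoodP v d).ncard := by
  classical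
  have hfin := finite_sq v
  have hmax : v.asIdeal.IsMaximal := v.isMaximal
  have hfin' : Finite (𝓞 K ⧸ v.asIdeal) := Ideal.finiteQuotientOfFreeOfNeBot _ v.ne_bot
  let _ : Field (𝓞 K ⧸ v.asIdeal) := Ideal.Quotient.field _
  set N := Ideal.absNorm v.asIdeal with hN
  have hq := irr_card (𝓞 K ⧸ v.asIdeal) d hd
  rw [card_residue, ← hN] at hq
  set J : Set (𝓞 K ⧸ v.asIdeal ^ 2) := {x | pr v x = 0} with hJ
  have hJc : J.ncard = N := ker_ncard v
  have hJp : (Set.pi Set.univ fun _ : Fin (d + 1) => J).ncard = N ^ (d + 1) := by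
    rw [← Nat.card_coe_set_eq, Nat.card_congr (Equiv.Set.univPi _), Nat.card_pi]
    simp only [Nat.card_coe_set_eq, hJc, Finset.prod_const, Finset.card_univ, Fintype.card_fin]
  let s := Function.surjInv (pr_surj v)
  have hs : ∀ x, pr v (s x) = x := Function.surjInv_eq (pr_surj v)
  have h1 : ((Irr (𝓞 K ⧸ v.asIdeal) d) ×ˢ
      (Set.pi Set.univ fun _ : Fin (d + 1) => J)).ncard ≤ (GoodP v d).ncard := by
    refine Set.ncard_le_ncard_of_injOn
      (fun x => fun i => s (x.1 i) + x.2 i) ?_ ?_ (Set.toFinite _)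
    · rintro ⟨c, t⟩ ⟨hc, ht⟩
      have e1 : ∀ i, pr v (s (c i) + t i) = c i := by
        intro i
        rw [map_add, hs, show pr v (t i) = 0 from ht i (Set.mem_univ i), add_zero]
      refine ⟨?_, ?_⟩
      · change pr v (s (c (Fin.last d)) + t (Fin.last d)) ≠ 0
        rw [e1]
        exact hc.1
      · change Irreducible (pol fun i : Fin (d + 1) => pr v (s (c i) + t i))
        simp only [e1]
        exact hc.2
    · rintro ⟨c, t⟩ ⟨hc, ht⟩ ⟨c', t'⟩ ⟨hc', ht'⟩ h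
      have h1 : ∀ i : Fin (d + 1), s (c i) + t i = s (c' i) + t' i := fun i => congrFun h i
      have e1 : c = c' := by
        funext i
        have := congrArg (pr v) (h1 i)
        rwa [map_add, map_add, hs, hs, show pr v (t i) = 0 from ht i (Set.mem_univ i),
          show pr v (t' i) = 0 from ht' i (Set.mem_univ i), add_zero, add_zero] at this
      subst e1
      have e2 : t = t' := by
        funext i
        have := h1 i
        rwa [add_right_inj] at this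
      rw [e2]
  rw [Set.ncard_prod, hJp] at h1
  calc (N - 1) * N ^ (2 * d + 1) = ((N - 1) * N ^ d) * N ^ (d + 1) := by ring
    _ ≤ (2 * d * (Irr (𝓞 K ⧸ v.asIdeal) d).ncard) * N ^ (d + 1) := by
        gcongr
    _ = 2 * d * ((Irr (𝓞 K ⧸ v.asIdeal) d).ncard * N ^ (d + 1)) := by ring
    _ ≤ 2 * d * (GoodP v d).ncard := Nat.mul_le_mul_left _ h1

lemma two_le_norm : 2 ≤ Ideal.absNorm v.asIdeal := by
  by_contra h
  have h3 : Ideal.absNorm v.asIdeal = 0 ∨ Ideal.absNorm v.asIdeal = 1 := by omega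
  rcases h3 with h3 | h3
  · exact absurd h3 (Pool.Agent.W417.SecC.D2.norm_pos v).ne'
  · rw [Ideal.absNorm_eq_one_iff] at h3
    exact v.isPrime.ne_top h3

lemma goodP_card_real (d : ℕ) (hd : 3 ≤ d) :
    (1 / (4 * d) : ℝ) * ((Ideal.absNorm v.asIdeal : ℝ) ^ 2) ^ (d + 1) ≤
      ((GoodP v d).ncard : ℝ) := by
  have h1 := goodP_card v d hd
  have hN2 := two_le_norm v
  set N := Ideal.absNorm v.asIdeal with hN
  have hNr : (2 : ℝ) ≤ N := by exact_mod_cast hN2
  have hdr : (0 : ℝ) < d := by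
    have : 0 < d := by omega
    exact_mod_cast this
  have h4 : ((N : ℝ) - 1) * (N : ℝ) ^ (2 * d + 1) ≤ 2 * d * ((GoodP v d).ncard : ℝ) := by
    have h5 : ((N - 1 : ℕ) : ℝ) = (N : ℝ) - 1 := by
      rw [Nat.cast_sub (by omega)]
      norm_num
    rw [← h5]
    exact_mod_cast h1
  have h6 : (1 / 2) * ((N : ℝ) ^ 2) ^ (d + 1) ≤ ((N : ℝ) - 1) * (N : ℝ) ^ (2 * d + 1) := by
    have h7 : ((N : ℝ) ^ 2) ^ (d + 1) = N * (N : ℝ) ^ (2 * d + 1) := by ring
    rw [h7]
    have h8 : (0 : ℝ) ≤ (N : ℝ) ^ (2 * d + 1) := by positivity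
    nlinarith
  have h9 : (1 / (4 * d) : ℝ) * ((N : ℝ) ^ 2) ^ (d + 1) =
      ((1 / 2) * ((N : ℝ) ^ 2) ^ (d + 1)) / (2 * d) := by
    field_simp
    ring
  rw [h9, div_le_iff₀ (by positivity)]
  linarith

/-- the good vectors modulo `v ^ 2` -/
def GoodM {r : ℕ} (d : Fin r → ℕ) : Set (Idx d → 𝓞 K ⧸ v.asIdeal ^ 2) :=
  {x | (pr v (x none) = 0 ∧ x none ≠ 0) ∧ ∀ i, (fun j => x (some ⟨i, j⟩)) ∈ GoodP v (d i)}

/-- splitting the coordinates -/
def splitEquiv {r : ℕ} (d : Fin r → ℕ) (R : Type) :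
    (R × ((i : Fin r) → Fin (d i + 1) → R)) ≃ (Idx d → R) where
  toFun x := fun o => match o with
    | none => x.1
    | some ⟨i, j⟩ => x.2 i j
  invFun y := (y none, fun i j => y (some ⟨i, j⟩))
  left_inv x := rfl
  right_inv y := by
    funext o
    rcases o with _ | ⟨i, j⟩ <;> rfl

lemma goodM_card {r : ℕ} (d : Fin r → ℕ) (hd : ∀ i, 3 ≤ d i) :
    (∏ i, (1 / (4 * d i) : ℝ)) * (1 / (Ideal.absNorm v.asIdeal : ℝ) -
      1 / (Ideal.absNorm v.asIdeal : ℝ) ^ 2) *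
      ((Ideal.absNorm v.asIdeal : ℝ) ^ 2) ^ (Fintype.card (Idx d)) ≤ ((GoodM v d).ncard : ℝ) := by
  classical
  have hfin := finite_sq v
  have hN2 := two_le_norm v
  set N := Ideal.absNorm v.asIdeal with hN
  have hNr : (2 : ℝ) ≤ N := by exact_mod_cast hN2
  set J : Set (𝓞 K ⧸ v.asIdeal ^ 2) := {x | pr v x = 0} with hJ
  have hJc : J.ncard = N := ker_ncard v
  have hJ0 : (J \ {0}).ncard = N - 1 := by
    rw [Set.ncard_sdiff_singleton_of_mem (show (0 : 𝓞 K ⧸ v.asIdeal ^ 2) ∈ J from map_zero _), hJc]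
  have hpi : (Set.pi Set.univ fun i : Fin r => GoodP v (d i)).ncard =
      ∏ i, (GoodP v (d i)).ncard := by
    rw [← Nat.card_coe_set_eq, Nat.card_congr (Equiv.Set.univPi _), Nat.card_pi]
    simp only [Nat.card_coe_set_eq]
  have h1 : ((J \ {0}) ×ˢ (Set.pi Set.univ fun i : Fin r => GoodP v (d i))).ncard ≤
      (GoodM v d).ncard := by
    refine Set.ncard_le_ncard_of_injOn (splitEquiv d _) ?_
      (splitEquiv d _).injective.injOn (Set.toFinite _)
    rintro ⟨j, c⟩ ⟨hj, hc⟩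
    exact ⟨⟨hj.1, hj.2⟩, fun i => hc i (Set.mem_univ i)⟩
  rw [Set.ncard_prod, hJ0, hpi] at h1
  have h2 : ((N : ℝ) - 1) * ∏ i, ((GoodP v (d i)).ncard : ℝ) ≤ ((GoodM v d).ncard : ℝ) := by
    have h5 : ((N - 1 : ℕ) : ℝ) = (N : ℝ) - 1 := by
      rw [Nat.cast_sub (by omega)]
      norm_num
    rw [← h5]
    exact_mod_cast h1
  have h3 : ∏ i, ((1 / (4 * d i) : ℝ) * ((N : ℝ) ^ 2) ^ (d i + 1)) ≤
      ∏ i, ((GoodP v (d i)).ncard : ℝ) := by
    refine Finset.prod_le_prod (fun i _ => by positivity) fun i _ => ?_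
    exact goodP_card_real v (d i) (hd i)
  rw [Finset.prod_mul_distrib, Finset.prod_pow_eq_pow_sum] at h3
  have hcard : Fintype.card (Idx d) = (∑ i, (d i + 1)) + 1 := by
    rw [Fintype.card_option, Fintype.card_sigma]
    simp only [Fintype.card_fin]
  rw [hcard, pow_succ ((N : ℝ) ^ 2)]
  have hN0 : (N : ℝ) ≠ 0 := by linarith
  have h4 : (∏ i, (1 / (4 * d i) : ℝ)) * (1 / (N : ℝ) - 1 / (N : ℝ) ^ 2) *
      (((N : ℝ) ^ 2) ^ (∑ i, (d i + 1)) * (N : ℝ) ^ 2) =
      ((N : ℝ) - 1) * ((∏ i, (1 / (4 * d i) : ℝ)) * ((N : ℝ) ^ 2) ^ (∑ i, (d i + 1))) := by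
    field_simp
  rw [h4]
  refine le_trans ?_ h2
  exact mul_le_mul_of_nonneg_left h3 (by linarith)

/-- the complement -/
lemma badM_card {r : ℕ} (d : Fin r → ℕ) (hd : ∀ i, 3 ≤ d i) :
    (((GoodM v d)ᶜ).ncard : ℝ) ≤ (1 - (∏ i, (1 / (4 * d i) : ℝ)) *
      (1 / (Ideal.absNorm v.asIdeal : ℝ) - 1 / (Ideal.absNorm v.asIdeal : ℝ) ^ 2)) *
      ((Ideal.absNorm v.asIdeal : ℝ) ^ 2) ^ (Fintype.card (Idx d)) := by
  classical
  have hfin := finite_sq v
  have h1 := goodM_card v d hd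
  have h2 : (GoodM v d).ncard + ((GoodM v d)ᶜ).ncard =
      (Ideal.absNorm v.asIdeal ^ 2) ^ (Fintype.card (Idx d)) := by
    rw [Set.ncard_add_ncard_compl, Nat.card_fun, Pool.Agent.W417.SecC.D2.card_sq,
      Nat.card_eq_fintype_card]
  have h3 : ((GoodM v d).ncard : ℝ) + (((GoodM v d)ᶜ).ncard : ℝ) =
      ((Ideal.absNorm v.asIdeal : ℝ) ^ 2) ^ (Fintype.card (Idx d)) := by
    exact_mod_cast h2
  rw [sub_mul, one_mul]
  linarith

/-- `E` lies in at most `ε #(R/I) ^ |ι|` residue classes modulo some ideal `I ≠ 0` -/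
def SmallI {ι : Type} [Fintype ι] (E : Set (ι → 𝓞 K)) (ε : ℝ) : Prop :=
  ∃ I : Ideal (𝓞 K), I ≠ ⊥ ∧ Finite (𝓞 K ⧸ I) ∧
    (Set.ncard ((fun (y : ι → 𝓞 K) i => Ideal.Quotient.mk I (y i)) '' E) : ℝ) ≤
      ε * (Nat.card (𝓞 K ⧸ I) : ℝ) ^ (Fintype.card ι)

/-- almost all vectors are good at many primes -/
theorem many_good {r : ℕ} (d : Fin r → ℕ) (hd : ∀ i, 3 ≤ d i) (M : ℕ) (ε : ℝ) (hε : 0 < ε) :
    SmallI {y : Idx d → 𝓞 K | ¬ ∃ T : Finset (HeightOneSpectrum (𝓞 K)), T.card = M ∧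
      ∀ v ∈ T, (fun o => Ideal.Quotient.mk (v.asIdeal ^ 2) (y o)) ∈ GoodM v d} ε := by
  classical
  set D := Fintype.card (Idx d) with hD
  let e : Idx d ≃ Fin D := Fintype.equivFin _
  set δ : ℝ := ∏ i, (1 / (4 * d i) : ℝ) with hδ
  have hdr : ∀ i, (3 : ℝ) ≤ d i := fun i => by exact_mod_cast hd i
  have hδ0 : 0 < δ := by
    refine Finset.prod_pos fun i _ => ?_
    have := hdr i
    positivity
  have hδ1 : δ ≤ 1 := by
    refine Finset.prod_le_one (fun i _ => ?_) fun i _ => ?_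
    · have := hdr i
      positivity
    · have := hdr i
      rw [div_le_one (by positivity)]
      linarith
  have key := many_vec D (fun v : HeightOneSpectrum (𝓞 K) => True)
    (fun v => {x : Fin D → 𝓞 K ⧸ v.asIdeal ^ 2 | (fun o => x (e o)) ∉ GoodM v d}) δ (by
      intro c hc ε' hε'
      obtain ⟨T, hT, hTδ⟩ := Pool.Agent.TH120.Sec.supply_split 2 Nat.prime_two c hc δ hδ0 hδ1 ε' hε'
      exact ⟨T, fun v hv => ⟨(hT v hv).1, trivial⟩, hTδ⟩) (by
      intro v _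
      have hfin := finite_sq v
      refine le_trans ?_ (badM_card v d hd)
      have h1 : {x : Fin D → 𝓞 K ⧸ v.asIdeal ^ 2 | (fun o => x (e o)) ∉ GoodM v d}.ncard ≤
          ((GoodM v d)ᶜ).ncard := by
        refine Set.ncard_le_ncard_of_injOn (fun x o => x (e o)) (fun x hx => hx) ?_ (Set.toFinite _)
        intro x _ y _ hxy
        funext i
        have := congrFun hxy (e.symm i)
        simpa using this
      exact_mod_cast h1) M ∅ ε hε
  obtain ⟨I, hI, hfin, hcard⟩ := key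
  refine ⟨I, hI, hfin, le_trans ?_ hcard⟩
  have h2 : ((fun (y : Idx d → 𝓞 K) i => Ideal.Quotient.mk I (y i)) ''
      {y : Idx d → 𝓞 K | ¬ ∃ T : Finset (HeightOneSpectrum (𝓞 K)), T.card = M ∧
      ∀ v ∈ T, (fun o => Ideal.Quotient.mk (v.asIdeal ^ 2) (y o)) ∈ GoodM v d}).ncard ≤
      (red I D '' {a : Fin D → 𝓞 K | ¬ ∃ T : Finset (HeightOneSpectrum (𝓞 K)), T.card = M ∧
        Disjoint T ∅ ∧ ∀ v ∈ T, True ∧ red (v.asIdeal ^ 2) D a ∉
          {x : Fin D → 𝓞 K ⧸ v.asIdeal ^ 2 | (fun o => x (e o)) ∉ GoodM v d}}).ncard := by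
    refine Set.ncard_le_ncard_of_injOn (fun x i => x (e.symm i)) ?_ ?_ (Set.toFinite _)
    · rintro _ ⟨y, hy, rfl⟩
      refine ⟨fun i => y (e.symm i), ?_, rfl⟩
      rintro ⟨T, hT, -, hTg⟩
      apply hy
      refine ⟨T, hT, fun v hv => ?_⟩
      have h3 := (hTg v hv).2
      rw [Set.mem_setOf_eq, not_not] at h3
      have h4 : (fun o => red (v.asIdeal ^ 2) D (fun i => y (e.symm i)) (e o)) =
          fun o => Ideal.Quotient.mk (v.asIdeal ^ 2) (y o) := by
        funext o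
        change Ideal.Quotient.mk (v.asIdeal ^ 2) (y (e.symm (e o))) = _
        rw [e.symm_apply_apply]
      rwa [h4] at h3
    · intro x _ y _ hxy
      funext o
      have := congrFun hxy (e o)
      simpa using this
  exact_mod_cast h2

end Pool.Agent.Q52.SecY
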